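import Pool.Agent.Lib.MP_25863d_co.Poly

/-!
Representations `c = s + s'` with `s, s' ∈ S`, `S = {(l, l x, l x², l g(x)) : l ≠ 0}`: exactly `q - 2` if `c ∈ S`, at most
`(2 D - 4) h` if `c ∉ S`, `c ≠ 0` (`h = 1` if `[E : F]` is odd, `h = 2` in general).
-/

set_option autoImplicit false

namespace Pool.Agent.Lib.MP_25863d_co

open Polynomial

section

set_option linter.unusedSectionVars false

variable {F : Type} [Field F] [Finite F] {E : Type} [Field E] [Algebra F E] [Finite E]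

/-- The group of the vertices. -/
abbrev Vx (F E : Type) : Type := F × E × E × F

/-- The generators. -/
def vec (g : E → F) (l : F) (x : E) : Vx F E := (l, l • x, l • x ^ 2, l * g x)

/-- The set of the generators. -/
def SS (g : E → F) : Set (Vx F E) := {s | ∃ l : F, l ≠ 0 ∧ ∃ x : E, s = vec g l x}

theorem SS_neg {g : E → F} {s : Vx F E} (h : s ∈ SS g) : -s ∈ SS g := by
  obtain ⟨l, hl, x, rfl⟩ := h
  refine ⟨-l, neg_ne_zero.2 hl, x, ?_⟩
  simp only [vec, Prod.neg_mk, neg_smul, neg_mul]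

theorem SS_zero {g : E → F} : (0 : Vx F E) ∉ SS g := by
  rintro ⟨l, hl, x, h⟩
  exact hl (congrArg Prod.fst h).symm

/-- The representations of `c`. -/
def Rep (g : E → F) (c : Vx F E) : Set (Vx F E) := {s | s ∈ SS g ∧ c - s ∈ SS g}

theorem vec_inj {g : E → F} {l l' : F} {x x' : E} (hl : l ≠ 0) (h : vec g l x = vec g l' x') : l = l' ∧ x = x' := by
  have h1 : l = l' := congrArg Prod.fst h
  subst h1
  have h2 : l • x = l • x' := congrArg (fun a => a.2.1) h
  exact ⟨rfl, smul_right_injective E hl h2⟩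

/-- The equations. -/
theorem mem_rep {g : E → F} {c s : Vx F E} (h : s ∈ Rep g c) : ∃ (l₁ l₂ : F) (x₁ x₂ : E), l₁ ≠ 0 ∧ l₂ ≠ 0 ∧
    s = vec g l₁ x₁ ∧ l₁ + l₂ = c.1 ∧ l₁ • x₁ + l₂ • x₂ = c.2.1 ∧ l₁ • x₁ ^ 2 + l₂ • x₂ ^ 2 = c.2.2.1 ∧
      l₁ * g x₁ + l₂ * g x₂ = c.2.2.2 := by
  obtain ⟨⟨l₁, h1, x₁, rfl⟩, l₂, h2, x₂, h3⟩ := h
  have h4 : c = vec g l₁ x₁ + vec g l₂ x₂ := by rw [← h3]; abel
  refine ⟨l₁, l₂, x₁, x₂, h1, h2, rfl, ?_, ?_, ?_, ?_⟩ <;> rw [h4] <;> rfl

/-- The representations of an element of `S` lie on its line. -/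
theorem rep_SS {g : E → F} {l₀ : F} {x₀ : E} (hl₀ : l₀ ≠ 0) :
    Rep g (vec g l₀ x₀) = (fun l => vec g l x₀) '' {l : F | l ≠ 0 ∧ l ≠ l₀} := by
  ext s
  constructor
  · intro h
    obtain ⟨l₁, l₂, x₁, x₂, h1, h2, rfl, e1, e2, e3, e4⟩ := mem_rep h
    have e1' : l₁ + l₂ = l₀ := e1
    have e2' : l₁ • x₁ + l₂ • x₂ = l₀ • x₀ := e2
    have e3' : l₁ • x₁ ^ 2 + l₂ • x₂ ^ 2 = l₀ • x₀ ^ 2 := e3
    simp only [Algebra.smul_def] at e2' e3'
    have m1 : algebraMap F E l₁ ≠ 0 := by rw [Ne, map_eq_zero]; exact h1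
    have m2 : algebraMap F E l₂ ≠ 0 := by rw [Ne, map_eq_zero]; exact h2
    have m0 : algebraMap F E l₀ ≠ 0 := by rw [Ne, map_eq_zero]; exact hl₀
    have e1'' : algebraMap F E l₁ + algebraMap F E l₂ = algebraMap F E l₀ := by rw [← map_add, e1']
    have hx : x₁ = x₂ := by
      have h3 : algebraMap F E l₁ * algebraMap F E l₂ * (x₁ - x₂) ^ 2 = 0 := by
        linear_combination algebraMap F E l₀ * e3' - (algebraMap F E l₁ * x₁ + algebraMap F E l₂ * x₂ +
          algebraMap F E l₀ * x₀) * e2' + (algebraMap F E l₁ * x₁ ^ 2 + algebraMap F E l₂ * x₂ ^ 2) * e1''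
      rcases mul_eq_zero.1 h3 with h4 | h4
      · exact absurd h4 (mul_ne_zero m1 m2)
      · exact sub_eq_zero.1 (pow_eq_zero_iff (by norm_num) |>.1 h4)
    subst hx
    have hx0 : x₁ = x₀ := by
      apply mul_left_cancel₀ m0
      linear_combination e2' - x₁ * e1''
    refine ⟨l₁, ⟨h1, ?_⟩, by rw [hx0]⟩
    rintro rfl
    apply h2
    linear_combination e1'
  · rintro ⟨l, ⟨h1, h2⟩, rfl⟩
    refine ⟨⟨l, h1, x₀, rfl⟩, l₀ - l, sub_ne_zero.2 (Ne.symm h2), x₀, ?_⟩
    simp only [vec, Prod.mk_sub_mk, sub_smul, sub_mul]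

theorem card_rep_SS {g : E → F} {c : Vx F E} (hc : c ∈ SS g) : (Rep g c).ncard = Nat.card F - 2 := by
  classical
  obtain ⟨l₀, h0, x₀, rfl⟩ := hc
  rw [rep_SS h0, Set.InjOn.ncard_image]
  · have : {l : F | l ≠ 0 ∧ l ≠ l₀} = ({0, l₀} : Set F)ᶜ := by
      ext l; simp [not_or]
    rw [this, Set.ncard_compl, Set.ncard_pair (Ne.symm h0)]
  · intro l hl l' _ h
    exact (vec_inj hl.1 h).1

/-- The case `c₀ = 0`. -/
theorem card_rep_zero (h2 : (2 : F) ≠ 0) {D : ℕ} {g : E → F} (hg : OddOnLines F E D g) {c : Vx F E} (hc0 : c ≠ 0)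
    (h0 : c.1 = 0) : (Rep g c).ncard ≤ D - 1 := by
  classical
  have : Fintype F := Fintype.ofFinite F
  have h2E : (2 : E) ≠ 0 := by
    have : algebraMap F E 2 ≠ 0 := by rw [Ne, map_eq_zero]; exact h2
    rwa [map_ofNat] at this
  by_cases hc1 : c.2.1 = 0
  · have : Rep g c = ∅ := by
      rw [Set.eq_empty_iff_forall_notMem]
      intro s hs
      obtain ⟨l₁, l₂, x₁, x₂, h1, h3, rfl, e1, e2, e3, e4⟩ := mem_rep hs
      rw [h0] at e1
      rw [hc1] at e2
      have e5 : l₂ = -l₁ := by linear_combination e1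
      subst e5
      have hx : x₁ = x₂ := by
        rw [neg_smul, ← sub_eq_add_neg, ← smul_sub] at e2
        exact sub_eq_zero.1 ((smul_eq_zero.1 e2).resolve_left h1)
      subst hx
      apply hc0
      refine Prod.ext h0 (Prod.ext hc1 (Prod.ext ?_ ?_))
      · rw [← e3]; simp
      · rw [← e4]; simp
    rw [this, Set.ncard_empty]
    exact Nat.zero_le _
  set b : E := c.2.1 with hb
  set e : E := c.2.2.1 / (2 * b) with he
  obtain ⟨G, G1, G2, G3, G4⟩ := hg e b hc1
  let Bs : Finset F := Finset.univ.filter fun w => w ≠ 0 ∧ G.eval w - G.eval (-w) = 2 * c.2.2.2 * w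
  have hBs := card_sym h2 G G3 G2 c.2.2.2 Bs fun w hw => (Finset.mem_filter.1 hw).2
  have hsub : Rep g c ⊆ (fun w : F => vec g (1 / (2 * w)) (e + w • b)) '' (Bs : Set F) := by
    intro s hs
    obtain ⟨l₁, l₂, x₁, x₂, h1, h3, rfl, e1, e2, e3, e4⟩ := mem_rep hs
    rw [h0] at e1
    have e5 : l₂ = -l₁ := by linear_combination e1
    subst e5
    have m1 : algebraMap F E l₁ ≠ 0 := by rw [Ne, map_eq_zero]; exact h1
    have e2' : algebraMap F E l₁ * (x₁ - x₂) = b := by
      rw [← hb] at e2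
      simp only [Algebra.smul_def, map_neg] at e2
      linear_combination e2
    have e3' : algebraMap F E l₁ * (x₁ - x₂) * (x₁ + x₂) = c.2.2.1 := by
      simp only [Algebra.smul_def, map_neg] at e3
      linear_combination e3
    rw [e2'] at e3'
    have e6 : x₁ + x₂ = 2 * e := by
      rw [he, ← e3']
      field_simp
    have e7 : algebraMap F E (1 / (2 * l₁)) * b = (x₁ - x₂) / 2 := by
      rw [← e2', map_div₀, map_one, map_mul, map_ofNat]
      field_simp
    have x1 : e + (1 / (2 * l₁)) • b = x₁ := by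
      rw [Algebra.smul_def, e7]
      have : e = (x₁ + x₂) / 2 := by rw [e6]; field_simp
      rw [this]; field_simp; ring
    have x2 : e + (-(1 / (2 * l₁))) • b = x₂ := by
      rw [neg_smul, Algebra.smul_def, e7]
      have : e = (x₁ + x₂) / 2 := by rw [e6]; field_simp
      rw [this]; field_simp; ring
    refine ⟨1 / (2 * l₁), ?_, ?_⟩
    · refine Finset.mem_coe.2 (Finset.mem_filter.2 ⟨Finset.mem_univ _, ?_, ?_⟩)
      · exact one_div_ne_zero (mul_ne_zero h2 h1)
      · rw [G1, G1, x1, x2, ← e4]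
        field_simp
        ring
    · show vec g (1 / (2 * (1 / (2 * l₁)))) (e + (1 / (2 * l₁)) • b) = _
      rw [x1]
      congr 1
      field_simp
  refine (Set.ncard_le_ncard hsub (Set.toFinite _)).trans ((Set.ncard_image_le (Set.toFinite _)).trans ?_)
  rw [Set.ncard_coe_finset]
  omega

/-- Solutions on the line of `r₀` through `e`. -/
def OnR (g : E → F) (c : Vx F E) (e r₀ : E) : Set (Vx F E) :=
  {s | s ∈ Rep g c ∧ ∃ (l : F) (v : F), v ≠ 0 ∧ s = vec g l (e + v • r₀)}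

/-- The solutions on one line. -/
theorem card_onR (h2 : (2 : F) ≠ 0) {D : ℕ} {g : E → F} (hg : OddOnLines F E D g) {c : Vx F E} (h0 : c.1 ≠ 0)
    {e r₀ : E} (hr₀ : r₀ ≠ 0) (he : e = (c.1)⁻¹ • c.2.1) {κ : F} (hκ : κ ≠ 0)
    (hw : c.1 • (κ • r₀ ^ 2) = c.2.2.1 - c.1 • e ^ 2) : (OnR g c e r₀).ncard ≤ 2 * D - 4 := by
  classical
  have : Fintype F := Fintype.ofFinite F
  obtain ⟨G, G1, G2, G3, G4⟩ := hg e r₀ hr₀
  let Bs : Finset F := Finset.univ.filter fun v => v ≠ 0 ∧ κ + v ^ 2 ≠ 0 ∧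
    κ * G.eval v + v ^ 2 * G.eval (-κ / v) = (c.2.2.2 / c.1) * (κ + v ^ 2)
  have hBs := card_mob h2 G G3 κ (c.2.2.2 / c.1) hκ Bs fun v hv => (Finset.mem_filter.1 hv).2
  have mc : algebraMap F E c.1 ≠ 0 := by rw [Ne, map_eq_zero]; exact h0
  have mκ : algebraMap F E κ ≠ 0 := by rw [Ne, map_eq_zero]; exact hκ
  have he' : algebraMap F E c.1 * e = c.2.1 := by
    rw [he, Algebra.smul_def, map_inv₀, mul_inv_cancel_left₀ mc]
  have hw' : algebraMap F E c.1 * (algebraMap F E κ * r₀ ^ 2) = c.2.2.1 - algebraMap F E c.1 * e ^ 2 := by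
    simpa only [Algebra.smul_def] using hw
  have hsub : OnR g c e r₀ ⊆ (fun v : F => vec g (c.1 * κ / (κ + v ^ 2)) (e + v • r₀)) '' (Bs : Set F) := by
    rintro s ⟨hs, l, v, hv, hsv⟩
    obtain ⟨l₁, l₂, x₁, x₂, h1, h3, rfl, e1, e2, e3, e4⟩ := mem_rep hs
    obtain ⟨hl, hx⟩ := vec_inj h1 hsv
    subst hl
    have m1 : algebraMap F E l₁ ≠ 0 := by rw [Ne, map_eq_zero]; exact h1
    have m2 : algebraMap F E l₂ ≠ 0 := by rw [Ne, map_eq_zero]; exact h3
    have mv : algebraMap F E v ≠ 0 := by rw [Ne, map_eq_zero]; exact hv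
    have e1' : algebraMap F E l₁ + algebraMap F E l₂ = algebraMap F E c.1 := by rw [← map_add, e1]
    simp only [Algebra.smul_def] at e2 e3 hx
    -- l₁ r = l₂ p
    have k1 : algebraMap F E l₁ * (x₁ - e) = algebraMap F E l₂ * (e - x₂) := by
      linear_combination e2 - he' - e * e1'
    have k2 : algebraMap F E l₁ * (x₁ - e) ^ 2 + algebraMap F E l₂ * (e - x₂) ^ 2 =
        algebraMap F E c.1 * (algebraMap F E κ * r₀ ^ 2) := by
      rw [hw']
      linear_combination e3 - 2 * e * e2 + 2 * e * he' + e ^ 2 * e1'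
    have hr : x₁ - e = algebraMap F E v * r₀ := by rw [hx]; ring
    rw [hr] at k1 k2
    -- l₁ v² = κ l₂
    have k3 : algebraMap F E l₁ * algebraMap F E v ^ 2 = algebraMap F E κ * algebraMap F E l₂ := by
      have k4 : algebraMap F E l₂ * (algebraMap F E l₁ * (algebraMap F E v * r₀) ^ 2 +
          algebraMap F E l₂ * (e - x₂) ^ 2) = algebraMap F E l₂ * (algebraMap F E c.1 * (algebraMap F E κ * r₀ ^ 2)) := by
        rw [k2]
      have k5 : (algebraMap F E l₂ * (e - x₂)) ^ 2 = (algebraMap F E l₁ * (algebraMap F E v * r₀)) ^ 2 := by rw [k1]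
      have k6 : algebraMap F E c.1 * r₀ ^ 2 * (algebraMap F E l₁ * algebraMap F E v ^ 2) =
          algebraMap F E c.1 * r₀ ^ 2 * (algebraMap F E κ * algebraMap F E l₂) := by
        rw [← e1'] at k4 ⊢
        linear_combination k4 - k5
      exact mul_left_cancel₀ (mul_ne_zero mc (pow_ne_zero _ hr₀)) k6
    have k7 : l₁ * v ^ 2 = κ * l₂ := by
      apply (algebraMap F E).injective
      rw [map_mul, map_mul, map_pow, k3]
    have k8 : l₂ * (κ + v ^ 2) = c.1 * v ^ 2 := by rw [← e1]; linear_combination -k7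
    have k9 : l₁ * (κ + v ^ 2) = c.1 * κ := by rw [← e1]; linear_combination k7
    have hden : κ + v ^ 2 ≠ 0 := by
      intro h5
      rw [h5, mul_zero] at k9
      exact (mul_ne_zero h0 hκ) k9.symm
    have hx1 : x₁ = e + v • r₀ := by rw [Algebra.smul_def]; exact hx
    have hx2 : x₂ = e + (-κ / v) • r₀ := by
      rw [Algebra.smul_def, map_div₀, map_neg]
      have k10 : algebraMap F E κ * (algebraMap F E l₂ * (e - x₂) * algebraMap F E v) =
          algebraMap F E κ * (algebraMap F E l₂ * (algebraMap F E κ * r₀)) := by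
        linear_combination (-(algebraMap F E κ * algebraMap F E v)) * k1 + (algebraMap F E κ * r₀) * k3
      have k11 := mul_left_cancel₀ mκ k10
      have k12 : (e - x₂) * algebraMap F E v = algebraMap F E κ * r₀ := by
        apply mul_left_cancel₀ m2
        linear_combination k11
      field_simp
      linear_combination -k12
    refine ⟨v, Finset.mem_coe.2 (Finset.mem_filter.2 ⟨Finset.mem_univ _, hv, hden, ?_⟩), ?_⟩
    · rw [G1, G1, ← hx1, ← hx2, div_mul_eq_mul_div, eq_div_iff h0, ← e4]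
      linear_combination (-(g x₁)) * k9 - (g x₂) * k8
    · show vec g (c.1 * κ / (κ + v ^ 2)) (e + v • r₀) = _
      rw [← hx1]
      congr 1
      rw [div_eq_iff hden, k9]
  refine (Set.ncard_le_ncard hsub (Set.toFinite _)).trans ((Set.ncard_image_le (Set.toFinite _)).trans ?_)
  rw [Set.ncard_coe_finset]
  omega

/-- Square classes: two elements of `E` outside `F` with squares in `F` differ by a factor in `F`. -/
theorem sq_class (h2 : (2 : F) ≠ 0) {z z' : E} {a a' : F} (ha : z ^ 2 = algebraMap F E a)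
    (ha' : z' ^ 2 = algebraMap F E a') (hz : ∀ v : F, z ≠ algebraMap F E v) (hz' : ∀ v : F, z' ≠ algebraMap F E v) :
    ∃ v : F, v ≠ 0 ∧ z' = algebraMap F E v * z := by
  classical
  have : Fintype F := Fintype.ofFinite F
  have hns : ∀ {y : E} {d : F}, y ^ 2 = algebraMap F E d → (∀ v : F, y ≠ algebraMap F E v) → ¬ IsSquare d := by
    rintro y d hy hyv ⟨r, rfl⟩
    have h3 : (y - algebraMap F E r) * (y + algebraMap F E r) = 0 := by
      rw [map_mul] at hy
      linear_combination hy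
    rcases mul_eq_zero.1 h3 with h4 | h4
    · exact hyv r (sub_eq_zero.1 h4)
    · apply hyv (-r)
      rw [map_neg]
      linear_combination h4
  have n1 := hns ha hz
  have n2 := hns ha' hz'
  have hchar : ringChar F ≠ 2 := by
    intro h5
    apply h2
    have h6 := ringChar.spec F 2
    have h7 : ((2 : ℕ) : F) = 0 := (h6).2 (by rw [h5])
    exact_mod_cast h7
  have ha0 : a ≠ 0 := by rintro rfl; exact n1 ⟨0, by simp⟩
  have ha'0 : a' ≠ 0 := by rintro rfl; exact n2 ⟨0, by simp⟩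
  have hsq : IsSquare (a' * a) := by
    have q1 := (quadraticChar_neg_one_iff_not_isSquare (F := F)).2 n1
    have q2 := (quadraticChar_neg_one_iff_not_isSquare (F := F)).2 n2
    have q3 : quadraticChar F (a' * a) = 1 := by rw [map_mul, q1, q2]; norm_num
    exact (quadraticChar_one_iff_isSquare (mul_ne_zero ha'0 ha0)).1 q3
  obtain ⟨r, hr⟩ := hsq
  have hz0 : z ≠ 0 := by
    rintro rfl
    exact hz 0 (by simp)
  have hz'0 : z' ≠ 0 := by
    rintro rfl
    exact hz' 0 (by simp)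
  have ma : algebraMap F E a ≠ 0 := by rw [Ne, map_eq_zero]; exact ha0
  have h3 : (z' * z - algebraMap F E r) * (z' * z + algebraMap F E r) = 0 := by
    have h4 := congrArg (algebraMap F E) hr
    rw [map_mul, map_mul, ← ha, ← ha'] at h4
    linear_combination h4
  have hr0 : r ≠ 0 := by
    rintro rfl
    rw [mul_zero] at hr
    exact mul_ne_zero ha'0 ha0 hr
  rcases mul_eq_zero.1 h3 with h4 | h4
  · refine ⟨r / a, div_ne_zero hr0 ha0, ?_⟩
    rw [map_div₀, ← ha]
    field_simp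
    linear_combination h4
  · refine ⟨-r / a, div_ne_zero (neg_ne_zero.2 hr0) ha0, ?_⟩
    rw [map_div₀, map_neg, ← ha]
    field_simp
    linear_combination h4

/-- The data of a representation of `c ∉ S`, `c₀ ≠ 0`. -/
theorem rep_data {g : E → F} {c s : Vx F E} (h0 : c.1 ≠ 0) (hc : c ∉ SS g) (hs : s ∈ Rep g c) {e : E}
    (he : e = (c.1)⁻¹ • c.2.1) : ∃ (l : F) (x : E) (κ : F), s = vec g l x ∧ x - e ≠ 0 ∧ κ ≠ 0 ∧
      c.1 • (κ • (x - e) ^ 2) = c.2.2.1 - c.1 • e ^ 2 := by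
  obtain ⟨l₁, l₂, x₁, x₂, h1, h3, rfl, e1, e2, e3, e4⟩ := mem_rep hs
  have mc : algebraMap F E c.1 ≠ 0 := by rw [Ne, map_eq_zero]; exact h0
  have m1 : algebraMap F E l₁ ≠ 0 := by rw [Ne, map_eq_zero]; exact h1
  have m2 : algebraMap F E l₂ ≠ 0 := by rw [Ne, map_eq_zero]; exact h3
  have he' : algebraMap F E c.1 * e = c.2.1 := by
    rw [he, Algebra.smul_def, map_inv₀, mul_inv_cancel_left₀ mc]
  have e1' : algebraMap F E l₁ + algebraMap F E l₂ = algebraMap F E c.1 := by rw [← map_add, e1]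
  have e2' := e2
  have e3' := e3
  simp only [Algebra.smul_def] at e2' e3'
  have k1 : algebraMap F E l₁ * (x₁ - e) = algebraMap F E l₂ * (e - x₂) := by
    linear_combination e2' - he' - e * e1'
  refine ⟨l₁, x₁, l₁ / l₂, rfl, ?_, div_ne_zero h1 h3, ?_⟩
  · intro hx
    have hx1 : x₁ = e := sub_eq_zero.1 hx
    have hx2 : x₂ = e := by
      rw [hx, mul_zero] at k1
      exact (sub_eq_zero.1 ((mul_eq_zero.1 k1.symm).resolve_left m2)).symm
    apply hc
    refine ⟨c.1, h0, e, ?_⟩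
    refine Prod.ext rfl (Prod.ext ?_ (Prod.ext ?_ ?_))
    · show c.2.1 = c.1 • e
      rw [Algebra.smul_def, he']
    · show c.2.2.1 = c.1 • e ^ 2
      rw [← e3, hx1, hx2, ← add_smul, e1]
    · show c.2.2.2 = c.1 * g e
      rw [← e4, hx1, hx2, ← add_mul, e1]
  · simp only [Algebra.smul_def, map_div₀]
    have k2 : algebraMap F E l₁ * (x₁ - e) ^ 2 + algebraMap F E l₂ * (e - x₂) ^ 2 =
        c.2.2.1 - algebraMap F E c.1 * e ^ 2 := by
      linear_combination e3' - 2 * e * e2' + 2 * e * he' + e ^ 2 * e1'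
    rw [← k2]
    have k5 : (algebraMap F E l₂ * (e - x₂)) ^ 2 = (algebraMap F E l₁ * (x₁ - e)) ^ 2 := by rw [k1]
    rw [← e1']
    field_simp
    linear_combination -k5

/-- The number of representations of `c ∉ S`, `c ≠ 0`. -/
theorem card_rep_le (h2 : (2 : F) ≠ 0) {D : ℕ} (hD : 3 ≤ D) {g : E → F} (hg : OddOnLines F E D g) {c : Vx F E}
    (hc0 : c ≠ 0) (hc : c ∉ SS g) : (Rep g c).ncard ≤ 2 * (2 * D - 4) ∧
      (Odd (Module.finrank F E) → (Rep g c).ncard ≤ 2 * D - 4) := by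
  by_cases h0 : c.1 = 0
  · have := card_rep_zero h2 hg hc0 h0
    exact ⟨by omega, fun _ => by omega⟩
  rcases Set.eq_empty_or_nonempty (Rep g c) with hE | ⟨s₀, hs₀⟩
  · rw [hE, Set.ncard_empty]
    exact ⟨Nat.zero_le _, fun _ => Nat.zero_le _⟩
  set e : E := (c.1)⁻¹ • c.2.1 with he
  obtain ⟨l₀, x₀, κ₀, rfl, hr₀, hκ₀, hw₀⟩ := rep_data h0 hc hs₀ he
  have b₀ := card_onR h2 hg h0 hr₀ he hκ₀ hw₀
  have mc : algebraMap F E c.1 ≠ 0 := by rw [Ne, map_eq_zero]; exact h0
  -- the ratio of two solutions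
  have ratio : ∀ {x x' : E} {κ κ' : F}, x - e ≠ 0 → κ ≠ 0 → κ' ≠ 0 →
      c.1 • (κ • (x - e) ^ 2) = c.2.2.1 - c.1 • e ^ 2 → c.1 • (κ' • (x' - e) ^ 2) = c.2.2.1 - c.1 • e ^ 2 →
      ((x' - e) / (x - e)) ^ 2 = algebraMap F E (κ / κ') := by
    intro x x' κ κ' hx hκ hκ' h3 h4
    have h5 := h3.trans h4.symm
    have mκ : algebraMap F E κ' ≠ 0 := by rw [Ne, map_eq_zero]; exact hκ'
    simp only [Algebra.smul_def] at h5
    have h6 := mul_left_cancel₀ mc h5
    rw [map_div₀]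
    field_simp
    linear_combination -h6
  have mem : ∀ {s : Vx F E} {l : F} {x : E} {r : E} {v : F}, s ∈ Rep g c → s = vec g l x → r ≠ 0 → x - e ≠ 0 →
      (x - e) / r = algebraMap F E v → s ∈ OnR g c e r := by
    intro s l x r v hs hsx hr hx hv
    refine ⟨hs, l, v, ?_, ?_⟩
    · rintro rfl
      rw [map_zero, div_eq_zero_iff] at hv
      exact hv.elim hx hr
    · rw [hsx, Algebra.smul_def, ← hv]
      congr 1
      field_simp
      ring
  constructor
  · by_cases hall : ∀ s ∈ Rep g c, s ∈ OnR g c e (x₀ - e)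
    · have : (Rep g c).ncard ≤ 2 * D - 4 := (Set.ncard_le_ncard hall (Set.toFinite _)).trans b₀
      omega
    push Not at hall
    obtain ⟨s₁, hs₁, hs₁'⟩ := hall
    obtain ⟨l₁, x₁, κ₁, rfl, hr₁, hκ₁, hw₁⟩ := rep_data h0 hc hs₁ he
    have b₁ := card_onR h2 hg h0 hr₁ he hκ₁ hw₁
    have q₁ := ratio hr₀ hκ₀ hκ₁ hw₀ hw₁
    have n₁ : ∀ v : F, (x₁ - e) / (x₀ - e) ≠ algebraMap F E v := fun v hv => hs₁' (mem hs₁ rfl hr₀ hr₁ hv)
    have hsub : Rep g c ⊆ OnR g c e (x₀ - e) ∪ OnR g c e (x₁ - e) := by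
      intro s hs
      obtain ⟨l, x, κ, rfl, hr, hκ, hw⟩ := rep_data h0 hc hs he
      have q := ratio hr₀ hκ₀ hκ hw₀ hw
      by_cases hv : ∃ v : F, (x - e) / (x₀ - e) = algebraMap F E v
      · obtain ⟨v, hv⟩ := hv
        exact Or.inl (mem hs rfl hr₀ hr hv)
      · push Not at hv
        obtain ⟨v, hv0, hv1⟩ := sq_class h2 q₁ q n₁ hv
        refine Or.inr (mem (v := v) hs rfl hr₁ hr ?_)
        rw [div_eq_iff hr₁]
        rw [div_eq_iff hr₀] at hv1
        rw [hv1]
        field_simp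
    have h3 := Set.ncard_le_ncard hsub (Set.toFinite _)
    have h4 := Set.ncard_union_le (OnR g c e (x₀ - e)) (OnR g c e (x₁ - e))
    omega
  · intro hodd
    refine (Set.ncard_le_ncard ?_ (Set.toFinite _)).trans b₀
    intro s hs
    obtain ⟨l, x, κ, rfl, hr, hκ, hw⟩ := rep_data h0 hc hs he
    have q := ratio hr₀ hκ₀ hκ hw₀ hw
    obtain ⟨v, hv⟩ : ∃ v : F, (x - e) / (x₀ - e) = algebraMap F E v := by
      set z := (x - e) / (x₀ - e) with hz
      have hint : IsIntegral F z := Algebra.IsIntegral.isIntegral z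
      have hdvd : (minpoly F z).natDegree ∣ Module.finrank F E := minpoly.degree_dvd hint
      have hle : (minpoly F z).natDegree ≤ 2 := by
        have h5 : minpoly F z ∣ X ^ 2 - C (κ₀ / κ) := by
          apply minpoly.dvd
          rw [map_sub, map_pow, aeval_X, aeval_C, q, sub_self]
        have h6 := natDegree_le_of_dvd h5 (monic_X_pow_sub_C _ (by norm_num)).ne_zero
        rwa [natDegree_X_pow_sub_C] at h6
      have hpos : 0 < (minpoly F z).natDegree := minpoly.natDegree_pos hint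
      have h1 : (minpoly F z).natDegree = 1 := by
        rcases Nat.lt_or_ge (minpoly F z).natDegree 2 with h7 | h7
        · omega
        · have h8 : (minpoly F z).natDegree = 2 := by omega
          rw [h8] at hdvd
          exact absurd hodd (Nat.not_odd_iff_even.2 (even_iff_two_dvd.2 hdvd))
      obtain ⟨v, hv⟩ := minpoly.natDegree_eq_one_iff.1 h1
      exact ⟨v, hv.symm⟩
    exact mem hs rfl hr₀ hr hv

end

end Pool.Agent.Lib.MP_25863d_co
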