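import Pool.Agent.Lib.MP_25863d_co.Count

/-!
The Cayley graph with the generators `S`: the number of labelled triangles and of labelled copies of `K_{2,t}`.
-/

set_option autoImplicit false

namespace Pool.Agent.Lib.MP_25863d_co

open SimpleGraph

/-! ### Copies -/

section gen

theorem lcc_eq {V W : Type} [Fintype V] [Fintype W] (G : SimpleGraph V) (H : SimpleGraph W) :
    G.labelledCopyCount H = Nat.card (Copy H G) := by
  classical
  unfold labelledCopyCount
  rw [Nat.card_eq_fintype_card]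

/-- Every triangle is the image of at most 27 labelled triangles. -/
theorem tri_fibre {V : Type} [Fintype V] (G : SimpleGraph V) :
    G.labelledCopyCount (⊤ : SimpleGraph (Fin 3)) ≤ 27 * G.copyCount (⊤ : SimpleGraph (Fin 3)) := by
  classical
  rw [copyCount_eq_card_image_copyToSubgraph, lcc_eq, Nat.card_eq_fintype_card]
  refine (Finset.card_le_mul_card_image (Finset.univ : Finset (Copy (⊤ : SimpleGraph (Fin 3)) G)) 27
    fun G' hG' => ?_).trans le_rfl
  obtain ⟨f₀, _, rfl⟩ := Finset.mem_image.1 hG'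
  have h1 : ∀ f ∈ Finset.univ.filter (fun f : Copy (⊤ : SimpleGraph (Fin 3)) G => f.toSubgraph = f₀.toSubgraph),
      (fun (f : Copy (⊤ : SimpleGraph (Fin 3)) G) (i : Fin 3) => f i) f ∈
        Fintype.piFinset (fun _ : Fin 3 => Finset.univ.image fun i : Fin 3 => f₀ i) := by
    intro f hf
    rw [Fintype.mem_piFinset]
    intro i
    have h2 : f i ∈ f.toSubgraph.verts := ⟨i, trivial, rfl⟩
    rw [(Finset.mem_filter.1 hf).2] at h2
    obtain ⟨j, _, hj⟩ := h2
    exact Finset.mem_image.2 ⟨j, Finset.mem_univ _, hj⟩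
  refine (Finset.card_le_card_of_injOn (fun (f : Copy (⊤ : SimpleGraph (Fin 3)) G) (i : Fin 3) => f i)
    (fun f hf => Finset.mem_coe.2 (h1 f (Finset.mem_coe.1 hf))) ?_).trans ?_
  · intro f _ f' _ h
    exact Copy.ext fun a => congrFun h a
  · rw [Fintype.card_piFinset_const]
    have h3 : (Finset.univ.image fun i : Fin 3 => f₀ i).card ≤ 3 := by
      simpa using Finset.card_image_le (s := (Finset.univ : Finset (Fin 3))) (f := fun i : Fin 3 => f₀ i)
    calc _ ≤ 3 ^ 3 := Nat.pow_le_pow_left h3 3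
      _ = 27 := by norm_num

variable {V W : Type} [Fintype V] [Fintype W] {n : ℕ} (Γ : SimpleGraph V) (e : V ↪ Fin n) (H : SimpleGraph W)

theorem count_map : Γ.labelledCopyCount H ≤ (Γ.map e).labelledCopyCount H := by
  classical
  rw [lcc_eq, lcc_eq]
  refine Nat.card_le_card_of_injective (fun f : Copy H Γ => ((Embedding.map e Γ).toCopy.comp f)) fun f f' h => ?_
  refine Copy.ext fun a => e.injective ?_
  exact congrArg (fun c : Copy H (Γ.map e) => c a) h

theorem count_map' (hH : ∀ x : W, ∃ y, H.Adj x y) : (Γ.map e).labelledCopyCount H ≤ Γ.labelledCopyCount H := by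
  classical
  rw [lcc_eq, lcc_eq]
  have h1 : ∀ (f : Copy H (Γ.map e)) (x : W), ∃ v : V, e v = f x := by
    intro f x
    obtain ⟨y, hy⟩ := hH x
    obtain ⟨u, v, _, hu, _⟩ := (SimpleGraph.map_adj e Γ _ _).1 (f.toHom.map_rel hy)
    exact ⟨u, hu⟩
  choose φ hφ using h1
  have h2 : ∀ (f : Copy H (Γ.map e)) {x y : W}, H.Adj x y → Γ.Adj (φ f x) (φ f y) := by
    intro f x y hxy
    obtain ⟨u, v, huv, hu, hv⟩ := (SimpleGraph.map_adj e Γ _ _).1 (f.toHom.map_rel hxy)
    have e1 : u = φ f x := e.injective (hu.trans (hφ f x).symm)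
    have e2 : v = φ f y := e.injective (hv.trans (hφ f y).symm)
    rwa [← e1, ← e2]
  refine Nat.card_le_card_of_injective (fun f : Copy H (Γ.map e) =>
    (⟨⟨φ f, fun h => h2 f h⟩, fun x y h => f.injective ?_⟩ : Copy H Γ)) fun f f' h => ?_
  · show f x = f y
    rw [← hφ f x, ← hφ f y]
    exact congrArg e h
  · refine Copy.ext fun a => ?_
    rw [← hφ f a, ← hφ f' a]
    exact congrArg e (congrArg (fun c : Copy H Γ => c a) h)

theorem bip_adj (t : ℕ) (ht : 0 < t) (x : Fin 2 ⊕ Fin t) : ∃ y, (completeBipartiteGraph (Fin 2) (Fin t)).Adj x y := by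
  rcases x with x | x
  · exact ⟨Sum.inr ⟨0, ht⟩, by simp⟩
  · exact ⟨Sum.inl 0, by simp⟩

end gen

/-! ### The Cayley graph -/

section cay

variable {F : Type} [Field F] [Finite F] {E : Type} [Field E] [Algebra F E] [Finite E]

/-- The graph. -/
def cay (g : E → F) : SimpleGraph (Vx F E) where
  Adj a b := a - b ∈ SS g
  symm := ⟨fun a b h => by
    have h1 := SS_neg (g := g) h
    rwa [neg_sub] at h1⟩
  loopless := ⟨fun a h => SS_zero (g := g) (by rwa [sub_self] at h)⟩

theorem cay_adj (g : E → F) (a b : Vx F E) : (cay g).Adj a b ↔ a - b ∈ SS g := Iff.rfl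

theorem card_SS (g : E → F) : (SS g).ncard = (Nat.card F - 1) * Nat.card E := by
  classical
  have h1 : SS g = (fun p : F × E => vec g p.1 p.2) '' (({0} : Set F)ᶜ ×ˢ (Set.univ : Set E)) := by
    ext s
    constructor
    · rintro ⟨l, hl, x, rfl⟩
      exact ⟨(l, x), ⟨hl, trivial⟩, rfl⟩
    · rintro ⟨⟨l, x⟩, ⟨hl, _⟩, rfl⟩
      exact ⟨l, hl, x, rfl⟩
  rw [h1, Set.InjOn.ncard_image, Set.ncard_prod, Set.ncard_compl, Set.ncard_singleton, Set.ncard_univ]
  rintro ⟨l, x⟩ ⟨hl, _⟩ ⟨l', x'⟩ _ h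
  obtain ⟨h2, h3⟩ := vec_inj hl h
  exact Prod.ext h2 h3

variable [Fintype (Vx F E)]

theorem tri_count (g : E → F) :
    Nat.card (Vx F E) * ((Nat.card F - 1) * Nat.card E) * (Nat.card F - 2) ≤
      (cay g).labelledCopyCount (⊤ : SimpleGraph (Fin 3)) := by
  classical
  rw [lcc_eq, Nat.card_eq_fintype_card (α := Copy _ _)]
  let SF : Finset (Vx F E) := (Set.toFinite (SS g)).toFinset
  let RF : Vx F E → Finset (Vx F E) := fun c => (Set.toFinite (Rep g c)).toFinset
  let T : Finset (Σ _ : Vx F E × Vx F E, Vx F E) := (Finset.univ ×ˢ SF).sigma fun p => RF p.2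
  have hSF : ∀ s, s ∈ SF ↔ s ∈ SS g := fun s => Set.Finite.mem_toFinset _
  have hRF : ∀ c s, s ∈ RF c ↔ s ∈ Rep g c := fun c s => Set.Finite.mem_toFinset _
  have hT : T.card = Nat.card (Vx F E) * ((Nat.card F - 1) * Nat.card E) * (Nat.card F - 2) := by
    show ((Finset.univ ×ˢ SF).sigma fun p => RF p.2).card = _
    rw [Finset.card_sigma, Finset.sum_congr rfl (g := fun _ => Nat.card F - 2), Finset.sum_const,
      Finset.card_product, smul_eq_mul, Finset.card_univ, Nat.card_eq_fintype_card (α := Vx F E), ← card_SS g,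
      Set.ncard_eq_toFinset_card _ (Set.toFinite (SS g))]
    intro p hp
    rw [← card_rep_SS ((hSF _).1 (Finset.mem_product.1 hp).2), Set.ncard_eq_toFinset_card _ (Set.toFinite _)]
  rw [← hT]
  refine Finset.card_le_card_of_surjOn (s := (Finset.univ : Finset (Copy (⊤ : SimpleGraph (Fin 3)) (cay g))))
    (fun f => ⟨(f 0, f 1 - f 0), f 2 - f 0⟩) ?_
  rintro ⟨⟨a, s⟩, s'⟩ hx
  obtain ⟨h1, h2⟩ := Finset.mem_sigma.1 (Finset.mem_coe.1 hx)
  have hs : s ∈ SS g := (hSF _).1 (Finset.mem_product.1 h1).2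
  have hs' : s' ∈ SS g ∧ s - s' ∈ SS g := (hRF _ _).1 h2
  have k1 : (cay g).Adj (a + s) a := by rw [cay_adj, add_sub_cancel_left]; exact hs
  have k2 : (cay g).Adj (a + s') a := by rw [cay_adj, add_sub_cancel_left]; exact hs'.1
  have k3 : (cay g).Adj (a + s) (a + s') := by rw [cay_adj, add_sub_add_left_eq_sub]; exact hs'.2
  have hadj : ∀ i j : Fin 3, i ≠ j → (cay g).Adj ((![a, a + s, a + s'] : Fin 3 → Vx F E) i)
      ((![a, a + s, a + s'] : Fin 3 → Vx F E) j) := by
    intro i j hij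
    fin_cases i <;> fin_cases j
    · exact absurd rfl hij
    · exact k1.symm
    · exact k2.symm
    · exact k1
    · exact absurd rfl hij
    · exact k3
    · exact k2
    · exact k3.symm
    · exact absurd rfl hij
  refine ⟨⟨⟨![a, a + s, a + s'], fun {i j} h => hadj i j h.ne⟩, fun i j h => ?_⟩, Finset.mem_coe.2 (Finset.mem_univ _), ?_⟩
  · by_contra hij
    have h3 := hadj i j hij
    have h4 : (![a, a + s, a + s'] : Fin 3 → Vx F E) i = (![a, a + s, a + s'] : Fin 3 → Vx F E) j := h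
    rw [h4] at h3
    exact (cay g).loopless.irrefl _ h3
  · show (⟨(a, a + s - a), a + s' - a⟩ : Σ _ : Vx F E × Vx F E, Vx F E) = ⟨(a, s), s'⟩
    rw [add_sub_cancel_left, add_sub_cancel_left]

theorem bip_count (g : E → F) (t : ℕ) (ht : ∀ c : Vx F E, c ≠ 0 → c ∉ SS g → (Rep g c).ncard < t) :
    (cay g).labelledCopyCount (completeBipartiteGraph (Fin 2) (Fin t)) ≤
      Nat.card (Vx F E) * ((Nat.card F - 1) * Nat.card E) * (Nat.card F - 2) ^ t := by
  classical
  rw [lcc_eq, Nat.card_eq_fintype_card (α := Copy _ _)]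
  let SF : Finset (Vx F E) := (Set.toFinite (SS g)).toFinset
  let RF : Vx F E → Finset (Vx F E) := fun c => (Set.toFinite (Rep g c)).toFinset
  let T : Finset (Σ _ : Vx F E × Vx F E, (Fin t → Vx F E)) :=
    (Finset.univ ×ˢ SF).sigma fun p => Fintype.piFinset fun _ => RF p.2
  have hSF : ∀ s, s ∈ SF ↔ s ∈ SS g := fun s => Set.Finite.mem_toFinset _
  have hRF : ∀ c s, s ∈ RF c ↔ s ∈ Rep g c := fun c s => Set.Finite.mem_toFinset _
  have hT : T.card = Nat.card (Vx F E) * ((Nat.card F - 1) * Nat.card E) * (Nat.card F - 2) ^ t := by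
    show ((Finset.univ ×ˢ SF).sigma fun p => Fintype.piFinset fun _ => RF p.2).card = _
    rw [Finset.card_sigma, Finset.sum_congr rfl (g := fun _ => (Nat.card F - 2) ^ t), Finset.sum_const,
      Finset.card_product, smul_eq_mul, Finset.card_univ, Nat.card_eq_fintype_card (α := Vx F E), ← card_SS g,
      Set.ncard_eq_toFinset_card _ (Set.toFinite (SS g))]
    intro p hp
    rw [Fintype.card_piFinset_const, ← card_rep_SS ((hSF _).1 (Finset.mem_product.1 hp).2),
      Set.ncard_eq_toFinset_card _ (Set.toFinite _)]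
  rw [← hT]
  have hadj : ∀ (f : Copy (completeBipartiteGraph (Fin 2) (Fin t)) (cay g)) (i : Fin 2) (j : Fin t),
      f (Sum.inl i) - f (Sum.inr j) ∈ SS g := by
    intro f i j
    exact (cay_adj g _ _).1 (f.toHom.map_rel
      (show (completeBipartiteGraph (Fin 2) (Fin t)).Adj (Sum.inl i) (Sum.inr j) by simp))
  have hrep : ∀ (f : Copy (completeBipartiteGraph (Fin 2) (Fin t)) (cay g)) (j : Fin t),
      f (Sum.inl 0) - f (Sum.inr j) ∈ Rep g (f (Sum.inl 0) - f (Sum.inl 1)) := by
    intro f j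
    refine ⟨hadj f 0 j, ?_⟩
    have h1 := SS_neg (hadj f 1 j)
    rw [neg_sub] at h1
    rwa [sub_sub_sub_cancel_left]
  have hinj : ∀ (f : Copy (completeBipartiteGraph (Fin 2) (Fin t)) (cay g)) {x y : Fin 2 ⊕ Fin t},
      f x = f y → x = y := fun f x y h => f.injective h
  have hS : ∀ f : Copy (completeBipartiteGraph (Fin 2) (Fin t)) (cay g), f (Sum.inl 0) - f (Sum.inl 1) ∈ SS g := by
    intro f
    by_contra hn
    have h1 := ht _ (fun h0 => by
      have h3 := hinj f (sub_eq_zero.1 h0)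
      exact absurd (Sum.inl_injective h3) (by decide)) hn
    have h2 : t ≤ (Rep g (f (Sum.inl 0) - f (Sum.inl 1))).ncard := by
      have h3 : (Set.range fun j : Fin t => f (Sum.inl 0) - f (Sum.inr j)).ncard = t := by
        rw [← Set.image_univ, Set.InjOn.ncard_image, Set.ncard_univ, Nat.card_fin]
        intro j _ j' _ h
        have h4 : f (Sum.inl 0) - f (Sum.inr j) = f (Sum.inl 0) - f (Sum.inr j') := h
        exact Sum.inr_injective (hinj f (sub_right_injective h4))
      refine h3.symm.le.trans (Set.ncard_le_ncard ?_ (Set.toFinite _))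
      rintro _ ⟨j, rfl⟩
      exact hrep f j
    omega
  refine Finset.card_le_card_of_injOn (s := (Finset.univ : Finset (Copy (completeBipartiteGraph (Fin 2) (Fin t)) (cay g))))
    (fun f => ⟨(f (Sum.inl 0), f (Sum.inl 0) - f (Sum.inl 1)), fun j => f (Sum.inl 0) - f (Sum.inr j)⟩) ?_ ?_
  · intro f _
    refine Finset.mem_coe.2 (Finset.mem_sigma.2 ⟨Finset.mem_product.2 ⟨Finset.mem_univ _, (hSF _).2 (hS f)⟩, ?_⟩)
    exact Fintype.mem_piFinset.2 fun j => (hRF _ _).2 (hrep f j)
  · intro f _ f' _ h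
    have h' : (⟨(f (Sum.inl 0), f (Sum.inl 0) - f (Sum.inl 1)), fun j => f (Sum.inl 0) - f (Sum.inr j)⟩ :
        Σ _ : Vx F E × Vx F E, (Fin t → Vx F E)) =
        ⟨(f' (Sum.inl 0), f' (Sum.inl 0) - f' (Sum.inl 1)), fun j => f' (Sum.inl 0) - f' (Sum.inr j)⟩ := h
    rw [Sigma.mk.injEq, Prod.mk.injEq, heq_eq_eq] at h'
    obtain ⟨⟨a1, a2⟩, a3⟩ := h'
    refine Copy.ext fun x => ?_
    rcases x with x | x
    · have h3 : f (Sum.inl 1) = f' (Sum.inl 1) := by
        rw [a1] at a2
        exact sub_right_injective a2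
      fin_cases x
      · exact a1
      · exact h3
    · have h4 := congrFun a3 x
      have h5 : f (Sum.inl 0) - f (Sum.inr x) = f' (Sum.inl 0) - f' (Sum.inr x) := h4
      rw [a1] at h5
      exact sub_right_injective h5

end cay

end Pool.Agent.Lib.MP_25863d_co
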