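import Pool.Agent.Lib.MP_25863d_co.Graph

/-!
Graphs with many triangles and few copies of `K_{2,t}`: the theorem.
-/

set_option autoImplicit false

namespace Pool.Agent.Lib.MP_25863d_co

open SimpleGraph

/-- The graphs. -/
theorem main_graph (m s t r : ℕ) (hm : 2 ≤ m) (hs : m ≤ s ^ 2)
    (ht : (Even m ∧ 4 * s ≤ t + 5) ∨ 8 * s ≤ t + 11) (hr : 1 ≤ r) (n : ℕ) (hn : (3 ^ r) ^ (2 * m) ≤ n) :
    ∃ G : SimpleGraph (Fin n),
      (3 ^ r) ^ (2 * m) * ((3 ^ r - 1) * (3 ^ r) ^ (m - 1)) * (3 ^ r - 2) ≤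
        27 * G.copyCount (⊤ : SimpleGraph (Fin 3)) ∧
      G.copyCount (completeBipartiteGraph (Fin 2) (Fin t)) ≤
        (3 ^ r) ^ (2 * m) * ((3 ^ r - 1) * (3 ^ r) ^ (m - 1)) * (3 ^ r - 2) ^ t := by
  classical
  have hs2 : 2 ≤ s := by
    by_contra h
    have : s ^ 2 ≤ 1 ^ 2 := Nat.pow_le_pow_left (by omega) 2
    omega
  have ht0 : 0 < t := by omega
  have : Fact (Nat.Prime 3) := ⟨by norm_num⟩
  let F : Type := GaloisField 3 r
  have hFfin : Finite F := inferInstanceAs (Finite (GaloisField 3 r))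
  have hq : Nat.card F = 3 ^ r := GaloisField.card 3 r (by omega)
  have : NeZero (m - 1) := ⟨by omega⟩
  let E : Type := FiniteField.Extension F 3 (m - 1)
  have hEF : Module.finrank F E = m - 1 := FiniteField.finrank_extension F 3 (m - 1)
  have hEfin : Finite E := Module.finite_of_finite F
  have hE : Nat.card E = (3 ^ r) ^ (m - 1) := by
    rw [Module.natCard_eq_pow_finrank (K := F) (V := E), hq, hEF]
  have h2 : (2 : F) ≠ 0 := by
    intro h
    have h3 : ((2 : ℕ) : F) = 0 := by exact_mod_cast h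
    rw [CharP.cast_eq_zero_iff F 3] at h3
    omega
  obtain ⟨g, hg⟩ := exists_oddOnLines F 3 E (s - 1) (by
    rw [hEF]
    obtain ⟨s', rfl⟩ : ∃ s', s = s' + 1 := ⟨s - 1, by omega⟩
    rw [Nat.add_sub_cancel]
    have : (s' + 1) ^ 2 = s' * (s' + 2) + 1 := by ring
    omega)
  have hD : 3 ≤ 2 * (s - 1) + 1 := by omega
  have hrep : ∀ c : Vx F E, c ≠ 0 → c ∉ SS g → (Rep g c).ncard < t := by
    intro c h0 hc
    obtain ⟨b1, b2⟩ := card_rep_le h2 hD hg h0 hc
    rcases ht with ⟨he, h4⟩ | h8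
    · have h5 := b2 (by
        rw [hEF]
        obtain ⟨j, hj⟩ := he
        exact ⟨j - 1, by omega⟩)
      omega
    · omega
  have hV : Nat.card (Vx F E) = (3 ^ r) ^ (2 * m) := by
    show Nat.card (F × E × E × F) = _
    rw [Nat.card_prod, Nat.card_prod, Nat.card_prod, hq, hE]
    obtain ⟨m', rfl⟩ : ∃ m', m = m' + 1 := ⟨m - 1, by omega⟩
    rw [Nat.add_sub_cancel]
    ring
  let _ : Fintype (Vx F E) := Fintype.ofFinite _
  have hcard : Fintype.card (Vx F E) ≤ Fintype.card (Fin n) := by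
    rw [Fintype.card_fin, ← Nat.card_eq_fintype_card, hV]
    exact hn
  obtain ⟨e⟩ := Function.Embedding.nonempty_of_card_le hcard
  have a1 := tri_count g
  have a2 := bip_count g t hrep
  rw [hV, hq, hE] at a1 a2
  refine ⟨(cay g).map e, ?_, ?_⟩
  · exact a1.trans ((count_map _ e _).trans (tri_fibre _))
  · exact copyCount_le_labelledCopyCount.trans ((count_map' _ e _ (bip_adj t ht0)).trans a2)

/-- One triangle. -/
theorem one_tri (n t : ℕ) (hn : 3 ≤ n) (ht : 2 ≤ t) : ∃ G : SimpleGraph (Fin n),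
    1 ≤ G.copyCount (⊤ : SimpleGraph (Fin 3)) ∧ G.copyCount (completeBipartiteGraph (Fin 2) (Fin t)) = 0 := by
  classical
  let e : Fin 3 ↪ Fin n := (Fin.castLEEmb hn)
  refine ⟨(⊤ : SimpleGraph (Fin 3)).map e, ?_, ?_⟩
  · rw [Nat.succ_le_iff, copyCount_pos]
    exact ⟨(Embedding.map e ⊤).toCopy⟩
  · have h1 : (⊤ : SimpleGraph (Fin 3)).labelledCopyCount (completeBipartiteGraph (Fin 2) (Fin t)) = 0 := by
      rw [labelledCopyCount_eq_zero]
      rintro ⟨f⟩
      have h2 := Fintype.card_le_of_injective _ f.injective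
      rw [Fintype.card_sum, Fintype.card_fin, Fintype.card_fin, Fintype.card_fin] at h2
      omega
    have h2 := count_map' (⊤ : SimpleGraph (Fin 3)) e _ (bip_adj t (by omega))
    have h3 := copyCount_le_labelledCopyCount (G := (⊤ : SimpleGraph (Fin 3)).map e)
      (H := completeBipartiteGraph (Fin 2) (Fin t))
    omega

theorem main (t : ℕ) (A : ℝ) (hA : 1 ≤ A) : ∃ c : ℝ, 0 < c ∧ ∀ m s : ℕ, 2 ≤ m → m ≤ s ^ 2 →
    (Even m ∧ 4 * s ≤ t + 5) ∨ 8 * s ≤ t + 11 → ∀ (n : ℕ) (k : ℝ), 3 ≤ n → 1 ≤ k →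
    (n : ℝ) ^ (1 / (2 * m) : ℝ) ≤ A * k → k ≤ A * (n : ℝ) ^ (1 / (2 * m) : ℝ) →
    ∃ G : SimpleGraph (Fin n),
      c * k * (n : ℝ) ^ (3 / 2 : ℝ) ≤ G.copyCount (⊤ : SimpleGraph (Fin 3)) ∧
      (G.copyCount (completeBipartiteGraph (Fin 2) (Fin t)) : ℝ) ≤ k ^ t * (n : ℝ) ^ (3 / 2 : ℝ) := by
  have hA0 : 0 < A := by linarith
  have hB0 : 0 < 3 * A := by linarith
  have hB1 : 1 ≤ 3 * A := by linarith
  refine ⟨1 / (729 * (3 * A) ^ (3 * (t + 11) ^ 2) * A ^ 2), by positivity, ?_⟩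
  intro m s hm hs ht n k hn hk hk1 hk2
  have hs2 : 2 ≤ s := by
    by_contra h
    have : s ^ 2 ≤ 1 ^ 2 := Nat.pow_le_pow_left (by omega) 2
    omega
  have hM : m ≤ (t + 11) ^ 2 := hs.trans (Nat.pow_le_pow_left (by omega) 2)
  have hk0 : 0 < k := by linarith
  set x : ℝ := (n : ℝ) ^ (1 / (2 * m) : ℝ) with hx
  have hm0 : (0 : ℝ) < m := by exact_mod_cast (by omega : 0 < m)
  have hn0 : (0 : ℝ) < n := by exact_mod_cast (by omega : 0 < n)
  have hx0 : 0 < x := Real.rpow_pos_of_pos hn0 _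
  have hx2 : x ^ (2 * m) = n := by
    rw [hx, ← Real.rpow_natCast, ← Real.rpow_mul hn0.le]
    have : (1 / (2 * m) : ℝ) * ((2 * m : ℕ) : ℝ) = 1 := by
      push_cast
      field_simp
    rw [this, Real.rpow_one]
  have hx3 : x ^ (3 * m) = (n : ℝ) ^ (3 / 2 : ℝ) := by
    rw [hx, ← Real.rpow_natCast, ← Real.rpow_mul hn0.le]
    congr 1
    push_cast
    field_simp
  rw [← hx3]
  have hpow : (3 * A) ^ (3 * m) ≤ (3 * A) ^ (3 * (t + 11) ^ 2) :=
    pow_le_pow_right₀ hB1 (Nat.mul_le_mul_left 3 hM)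
  have hP : 0 < (3 * A) ^ (3 * (t + 11) ^ 2) := by positivity
  rcases lt_or_ge x (3 * A) with hlt | hge
  · obtain ⟨G, g1, g2⟩ := one_tri n t hn (by omega)
    refine ⟨G, ?_, ?_⟩
    · have g1' : (1 : ℝ) ≤ G.copyCount (⊤ : SimpleGraph (Fin 3)) := by exact_mod_cast g1
      refine le_trans ?_ g1'
      have h1 : k ≤ 3 * A ^ 2 := by nlinarith
      have h2 : x ^ (3 * m) ≤ (3 * A) ^ (3 * (t + 11) ^ 2) :=
        (pow_le_pow_left₀ hx0.le hlt.le _).trans hpow
      have h3 : k * x ^ (3 * m) ≤ 3 * A ^ 2 * (3 * A) ^ (3 * (t + 11) ^ 2) :=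
        mul_le_mul h1 h2 (by positivity) (by positivity)
      rw [mul_assoc, one_div, inv_mul_le_iff₀ (by positivity), mul_one]
      refine h3.trans ?_
      have : 0 < A ^ 2 * (3 * A) ^ (3 * (t + 11) ^ 2) := by positivity
      nlinarith
    · rw [g2]
      push_cast
      positivity
  · -- the power of 3
    have hxA : 3 ≤ x / A := by rw [le_div_iff₀ hA0]; exact hge
    obtain ⟨r, hr1, hr2⟩ := exists_nat_pow_near (by linarith : (1 : ℝ) ≤ x / A) (by norm_num : (1 : ℝ) < 3)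
    have hr : 1 ≤ r := by
      by_contra h
      have : r = 0 := by omega
      subst this
      norm_num at hr2
      linarith
    set q : ℝ := (3 : ℝ) ^ r with hq
    have hq3 : 3 ≤ q := by
      have := pow_le_pow_right₀ (by norm_num : (1 : ℝ) ≤ 3) hr
      rwa [pow_one] at this
    have hq0 : 0 < q := by linarith
    have hqx : q ≤ x := hr1.trans (div_le_self hx0.le hA)
    have hqk : q ≤ k := hr1.trans (by rw [div_le_iff₀ hA0, mul_comm]; exact hk1)
    have hxq : x ≤ 3 * A * q := by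
      rw [pow_succ, div_lt_iff₀ hA0] at hr2
      linarith
    have hkq : k ≤ 3 * A ^ 2 * q := by
      have : A * x ≤ A * (3 * A * q) := mul_le_mul_of_nonneg_left hxq hA0.le
      nlinarith
    have hcastn : (((3 ^ r) ^ (2 * m) : ℕ) : ℝ) ≤ (n : ℝ) := by
      push_cast
      rw [← hx2]
      exact pow_le_pow_left₀ hq0.le hqx _
    obtain ⟨G, g1, g2⟩ := main_graph m s t r hm hs ht hr n (by exact_mod_cast hcastn)
    have c1 : ((3 ^ r - 1 : ℕ) : ℝ) = q - 1 := by
      rw [Nat.cast_sub (Nat.one_le_pow _ _ (by norm_num))]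
      push_cast
      rfl
    have c2 : ((3 ^ r - 2 : ℕ) : ℝ) = q - 2 := by
      have : 3 ≤ 3 ^ r := by
        calc 3 = 3 ^ 1 := by norm_num
          _ ≤ 3 ^ r := Nat.pow_le_pow_right (by norm_num) hr
      rw [Nat.cast_sub (by omega)]
      push_cast
      rfl
    have hqm : q ^ (m - 1) * q = q ^ m := by
      rw [← pow_succ]
      congr 1
      omega
    refine ⟨G, ?_, ?_⟩
    · have g1' : (((3 ^ r) ^ (2 * m) * ((3 ^ r - 1) * (3 ^ r) ^ (m - 1)) * (3 ^ r - 2) : ℕ) : ℝ) ≤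
          ((27 * G.copyCount (⊤ : SimpleGraph (Fin 3)) : ℕ) : ℝ) := by exact_mod_cast g1
      rw [Nat.cast_mul, Nat.cast_mul, Nat.cast_mul, c1, c2] at g1'
      push_cast at g1'
      have e1 : q ^ (3 * m) * q / 9 ≤ q ^ (2 * m) * ((q - 1) * q ^ (m - 1)) * (q - 2) := by
        have e2 : q ^ (3 * m) * q / 9 = q ^ (2 * m) * ((q / 3) * q ^ (m - 1)) * (q / 3) := by
          have : q ^ (3 * m) = q ^ (2 * m) * (q ^ (m - 1) * q) := by
            rw [hqm, ← pow_add]
            congr 1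
            ring
          rw [this]
          ring
        rw [e2]
        exact mul_le_mul (mul_le_mul_of_nonneg_left (mul_le_mul_of_nonneg_right (by linarith) (by positivity))
          (by positivity)) (by linarith) (by positivity)
          (mul_nonneg (by positivity) (mul_nonneg (by linarith) (by positivity)))
      have e3 : q ^ (3 * m) * q ≤ 243 * (G.copyCount (⊤ : SimpleGraph (Fin 3)) : ℝ) := by
        have := e1.trans g1'
        linarith
      have e4 : k * x ^ (3 * m) ≤ 3 * A ^ 2 * (3 * A) ^ (3 * (t + 11) ^ 2) * (q ^ (3 * m) * q) := by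
        have f1 : x ^ (3 * m) ≤ (3 * A) ^ (3 * (t + 11) ^ 2) * q ^ (3 * m) := by
          calc x ^ (3 * m) ≤ (3 * A * q) ^ (3 * m) := pow_le_pow_left₀ hx0.le hxq _
            _ = (3 * A) ^ (3 * m) * q ^ (3 * m) := mul_pow _ _ _
            _ ≤ (3 * A) ^ (3 * (t + 11) ^ 2) * q ^ (3 * m) :=
                mul_le_mul_of_nonneg_right hpow (by positivity)
        calc k * x ^ (3 * m) ≤ (3 * A ^ 2 * q) * ((3 * A) ^ (3 * (t + 11) ^ 2) * q ^ (3 * m)) :=
              mul_le_mul hkq f1 (by positivity) (by positivity)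
          _ = 3 * A ^ 2 * (3 * A) ^ (3 * (t + 11) ^ 2) * (q ^ (3 * m) * q) := by ring
      rw [mul_assoc, one_div, inv_mul_le_iff₀ (by positivity)]
      calc k * x ^ (3 * m) ≤ 3 * A ^ 2 * (3 * A) ^ (3 * (t + 11) ^ 2) * (q ^ (3 * m) * q) := e4
        _ ≤ 3 * A ^ 2 * (3 * A) ^ (3 * (t + 11) ^ 2) * (243 * (G.copyCount (⊤ : SimpleGraph (Fin 3)) : ℝ)) :=
            mul_le_mul_of_nonneg_left e3 (by positivity)
        _ = 729 * (3 * A) ^ (3 * (t + 11) ^ 2) * A ^ 2 * (G.copyCount (⊤ : SimpleGraph (Fin 3)) : ℝ) := by ring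
    · have g2' : (G.copyCount (completeBipartiteGraph (Fin 2) (Fin t)) : ℝ) ≤
          (((3 ^ r) ^ (2 * m) * ((3 ^ r - 1) * (3 ^ r) ^ (m - 1)) * (3 ^ r - 2) ^ t : ℕ) : ℝ) := by
        exact_mod_cast g2
      rw [Nat.cast_mul, Nat.cast_mul, Nat.cast_mul, Nat.cast_pow (3 ^ r - 2), c1, c2] at g2'
      push_cast at g2'
      refine g2'.trans ?_
      calc q ^ (2 * m) * ((q - 1) * q ^ (m - 1)) * (q - 2) ^ t
          ≤ q ^ (2 * m) * (q * q ^ (m - 1)) * k ^ t :=
            mul_le_mul (mul_le_mul_of_nonneg_left (mul_le_mul_of_nonneg_right (by linarith) (by positivity))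
              (by positivity)) (pow_le_pow_left₀ (by linarith) (by linarith) t)
              (pow_nonneg (by linarith) t) (by positivity)
        _ = k ^ t * q ^ (3 * m) := by
            have : q ^ (3 * m) = q ^ (2 * m) * (q ^ (m - 1) * q) := by
              rw [hqm, ← pow_add]
              congr 1
              ring
            rw [this]
            ring
        _ ≤ k ^ t * x ^ (3 * m) :=
            mul_le_mul_of_nonneg_left (pow_le_pow_left₀ hq0.le hqx _) (by positivity)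

end Pool.Agent.Lib.MP_25863d_co
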