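import Mathlib

/-!
A function `g` on a finite extension `E` of a finite field `F` which restricts to every affine `F`-line of `E` as a
polynomial of odd degree between `3` and `D`: a sum of norms of extensions of odd degrees.
-/

set_option autoImplicit false

namespace Pool.Agent.Lib.MP_25863d_co

open Polynomial

/-- `g` is a polynomial of odd degree between `3` and `D` on every line. -/
def OddOnLines (F : Type) [Field F] (E : Type) [Field E] [Algebra F E] (D : ℕ) (g : E → F) : Prop :=
  ∀ e b : E, b ≠ 0 → ∃ G : F[X], (∀ v : F, G.eval v = g (e + v • b)) ∧ Odd G.natDegree ∧ 3 ≤ G.natDegree ∧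
    G.natDegree ≤ D

section norm

variable {F : Type} [Field F] {L : Type} [Field L] [Algebra F L] [FiniteDimensional F L]

/-- The norm on a line. -/
theorem norm_line (α β : L) (hβ : β ≠ 0) :
    ∃ P : F[X], (∀ v : F, P.eval v = Algebra.norm F (α + v • β)) ∧ P.natDegree = Module.finrank F L := by
  refine ⟨C (Algebra.norm F β) * (Algebra.lmul F L (-(α / β))).charpoly, fun v => ?_, ?_⟩
  · rw [eval_mul, eval_C, LinearMap.eval_charpoly]
    have h1 : (algebraMap F (Module.End F L)) v - Algebra.lmul F L (-(α / β)) =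
        Algebra.lmul F L (algebraMap F L v + α / β) := by
      ext x
      simp [Algebra.smul_def]
    rw [h1, ← Algebra.norm_apply, ← map_mul]
    congr 1
    rw [Algebra.smul_def]
    field_simp
    ring
  · rw [natDegree_C_mul (Algebra.norm_ne_zero_iff.2 hβ), LinearMap.charpoly_natDegree]

theorem norm_line' (α β : L) :
    ∃ P : F[X], (∀ v : F, P.eval v = Algebra.norm F (α + v • β)) ∧
      (β ≠ 0 → P.natDegree = Module.finrank F L) ∧ (β = 0 → P.natDegree = 0) := by
  by_cases hβ : β = 0
  · refine ⟨C (Algebra.norm F α), fun v => ?_, fun h => absurd hβ h, fun _ => natDegree_C _⟩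
    rw [eval_C, hβ, smul_zero, add_zero]
  · obtain ⟨P, h1, h2⟩ := norm_line (F := F) α β hβ
    exact ⟨P, h1, fun _ => h2, fun h => absurd h hβ⟩

end norm

/-- The sum of the odd numbers `3, 5, …, 2 s + 1`. -/
theorem sum_odd (s : ℕ) : ∑ i : Fin s, (2 * (i : ℕ) + 3) = s * (s + 2) := by
  induction s with
  | zero => simp
  | succ s ih =>
    rw [Fin.sum_univ_castSucc]
    simp only [Fin.val_castSucc, Fin.val_last]
    rw [ih]; ring

/-- The function exists if `[E : F] ≤ s (s + 2)`, with `D = 2 s + 1`. -/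
theorem exists_oddOnLines (F : Type) [Field F] [Finite F] (p : ℕ) [Fact p.Prime] [CharP F p] (E : Type) [Field E]
    [Algebra F E] [FiniteDimensional F E] (s : ℕ) (h : Module.finrank F E ≤ s * (s + 2)) :
    ∃ g : E → F, OddOnLines F E (2 * s + 1) g := by
  classical
  let L : Fin s → Type := fun i => FiniteField.Extension F p (2 * (i : ℕ) + 3)
  have hfin : Module.finrank F (∀ i, L i) = s * (s + 2) := by
    rw [Module.finrank_pi_fintype]
    rw [← sum_odd s]
    exact Finset.sum_congr rfl fun i _ => FiniteField.finrank_extension F p _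
  obtain ⟨ι, hι⟩ := finrank_le_iff_exists_linearMap.1 (h.trans hfin.ge)
  refine ⟨fun x => ∑ i, Algebra.norm F (ι x i), fun e b hb => ?_⟩
  choose P hP1 hP2 hP3 using fun i => norm_line' (F := F) (ι e i) (ι b i)
  have hne : ∃ i, ι b i ≠ 0 := by
    by_contra hcon
    push Not at hcon
    apply hb
    apply hι
    rw [map_zero]
    funext i
    exact hcon i
  let T : Finset (Fin s) := Finset.univ.filter fun i => ι b i ≠ 0
  have hT : T.Nonempty := by
    obtain ⟨i, hi⟩ := hne
    exact ⟨i, Finset.mem_filter.2 ⟨Finset.mem_univ _, hi⟩⟩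
  obtain ⟨i₀, hi₀, hmax⟩ := T.exists_max_image (fun i => (i : ℕ)) hT
  have hb0 : ι b i₀ ≠ 0 := (Finset.mem_filter.1 hi₀).2
  have hd0 : (P i₀).natDegree = 2 * (i₀ : ℕ) + 3 := by
    rw [hP2 i₀ hb0]
    exact FiniteField.finrank_extension F p _
  have hdi : ∀ i, i ≠ i₀ → (P i).natDegree < 2 * (i₀ : ℕ) + 3 := by
    intro i hi
    by_cases hbi : ι b i = 0
    · rw [hP3 i hbi]; omega
    · have h1 : (i : ℕ) ≤ i₀ := hmax i (Finset.mem_filter.2 ⟨Finset.mem_univ _, hbi⟩)
      have h2 : (i : ℕ) ≠ i₀ := fun h => hi (Fin.ext h)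
      have h3 : (P i).natDegree = 2 * (i : ℕ) + 3 := by
        rw [hP2 i hbi]
        exact FiniteField.finrank_extension F p _
      omega
  have hsum : (∑ i, P i).natDegree = 2 * (i₀ : ℕ) + 3 := by
    rw [← Finset.add_sum_erase Finset.univ P (Finset.mem_univ i₀)]
    have h1 : (∑ i ∈ Finset.univ.erase i₀, P i).natDegree < (P i₀).natDegree := by
      rw [hd0]
      refine lt_of_le_of_lt (natDegree_sum_le _ _) ?_
      rw [Finset.fold_max_lt]
      refine ⟨by omega, fun i hi => ?_⟩
      exact hdi i (Finset.ne_of_mem_erase hi)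
    rw [natDegree_add_eq_left_of_natDegree_lt h1, hd0]
  refine ⟨∑ i, P i, fun v => ?_, ?_, ?_, ?_⟩
  · rw [eval_finsetSum]
    refine Finset.sum_congr rfl fun i _ => ?_
    have h1 : ι (e + v • b) i = ι e i + v • ι b i := by rw [map_add, map_smul]; rfl
    rw [hP1, h1]
  · rw [hsum]; exact ⟨(i₀ : ℕ) + 1, by ring⟩
  · rw [hsum]; omega
  · rw [hsum]
    have := i₀.2
    omega

section roots

variable {F : Type} [Field F]

/-- The number of `v` with `κ G(v) + v² G(-κ/v) = γ (κ + v²)`. -/
theorem card_mob (h2 : (2 : F) ≠ 0) (G : F[X]) (hG : 3 ≤ G.natDegree) (κ γ : F) (hκ : κ ≠ 0) (B : Finset F)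
    (hB : ∀ v ∈ B, v ≠ 0 ∧ κ + v ^ 2 ≠ 0 ∧ κ * G.eval v + v ^ 2 * G.eval (-κ / v) = γ * (κ + v ^ 2)) :
    B.card ≤ 2 * G.natDegree - 4 := by
  classical
  set j := G.natDegree with hj
  set P₁ : F[X] := C κ * (G * X ^ (j - 2)) with hP₁
  set P₂ : F[X] := ∑ i ∈ Finset.range (j + 1), C (G.coeff i * (-κ) ^ i) * X ^ (j - i) with hP₂
  set P₃ : F[X] := C γ * ((C κ + X ^ 2) * X ^ (j - 2)) with hP₃
  have hG0 : G ≠ 0 := by
    rintro rfl
    rw [natDegree_zero] at hj
    omega
  have d₁ : P₁.natDegree = 2 * j - 2 := by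
    rw [hP₁, natDegree_C_mul hκ, natDegree_mul hG0 (pow_ne_zero _ X_ne_zero), natDegree_X_pow]
    omega
  have d₂ : P₂.natDegree ≤ j := by
    refine natDegree_sum_le_of_forall_le _ _ fun i _ => ?_
    refine (natDegree_C_mul_le _ _).trans ?_
    rw [natDegree_X_pow]
    omega
  have d₃ : P₃.natDegree ≤ j := by
    refine (natDegree_C_mul_le _ _).trans (natDegree_mul_le.trans ?_)
    rw [natDegree_X_pow]
    have : (C κ + X ^ 2 : F[X]).natDegree ≤ 2 := by
      refine (natDegree_add_le _ _).trans ?_
      rw [natDegree_C, natDegree_X_pow]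
      omega
    omega
  set P : F[X] := P₁ + (P₂ - P₃) with hP
  have d₄ : (P₂ - P₃).natDegree ≤ j := (natDegree_sub_le _ _).trans (max_le d₂ d₃)
  have dP : P.natDegree = 2 * j - 2 := by
    rw [hP, natDegree_add_eq_left_of_natDegree_lt (by omega), d₁]
  have hP0 : P ≠ 0 := by
    intro h0
    rw [h0, natDegree_zero] at dP
    omega
  -- the values in an algebraic closure
  let K := AlgebraicClosure F
  have key : ∀ (x : K) (hx : x ≠ 0), (P.map (algebraMap F K)).eval x = x ^ (j - 2) *
      (algebraMap F K κ * (G.map (algebraMap F K)).eval x + x ^ 2 * (G.map (algebraMap F K)).eval (-algebraMap F K κ / x)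
        - algebraMap F K γ * (algebraMap F K κ + x ^ 2)) := by
    intro x hx
    have e2 : (P₂.map (algebraMap F K)).eval x = x ^ j * (G.map (algebraMap F K)).eval (-algebraMap F K κ / x) := by
      rw [hP₂, Polynomial.map_sum, eval_finsetSum]
      have hd : (G.map (algebraMap F K)).natDegree < j + 1 := by
        rw [natDegree_map]; omega
      rw [eval_eq_sum_range' hd, Finset.mul_sum]
      refine Finset.sum_congr rfl fun i hi => ?_
      have hij : i ≤ j := Nat.lt_succ_iff.1 (Finset.mem_range.1 hi)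
      simp only [Polynomial.map_mul, map_C, Polynomial.map_pow, map_X, eval_mul, eval_C, eval_pow, eval_X, coeff_map,
        map_mul, map_pow, map_neg, Polynomial.map_neg, eval_neg]
      rw [div_pow]
      have hxi : x ^ i ≠ 0 := pow_ne_zero _ hx
      have hx2 : x ^ j = x ^ (j - i) * x ^ i := by rw [← pow_add]; congr 1; omega
      have hc : x ^ i * ((-algebraMap F K κ) ^ i / x ^ i) = (-algebraMap F K κ) ^ i := by
        rw [mul_comm, div_mul_cancel₀ _ hxi]
      rw [hx2]
      linear_combination (-(algebraMap F K (G.coeff i)) * x ^ (j - i)) * hc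
    rw [hP, Polynomial.map_add, Polynomial.map_sub, eval_add, eval_sub, e2, hP₁, hP₃]
    simp only [Polynomial.map_mul, map_C, Polynomial.map_pow, map_X, eval_mul, eval_C, eval_pow, eval_X,
      Polynomial.map_add, eval_add]
    have hx2 : x ^ j = x ^ (j - 2) * x ^ 2 := by rw [← pow_add]; congr 1; omega
    rw [hx2]
    ring
  have hP0' : P.map (algebraMap F K) ≠ 0 := (Polynomial.map_ne_zero_iff (algebraMap F K).injective).2 hP0
  obtain ⟨i₀, hi₀⟩ := IsAlgClosed.exists_pow_nat_eq (-algebraMap F K κ) (n := 2) (by norm_num)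
  have hκ' : algebraMap F K κ ≠ 0 := by
    rw [Ne, map_eq_zero]; exact hκ
  have hi0 : i₀ ≠ 0 := by
    rintro rfl
    rw [zero_pow (by norm_num)] at hi₀
    exact hκ' (neg_eq_zero.1 hi₀.symm)
  have hroot : ∀ x : K, x ^ 2 = -algebraMap F K κ → (P.map (algebraMap F K)).eval x = 0 := by
    intro x hx
    have hx0 : x ≠ 0 := by
      rintro rfl
      rw [zero_pow (by norm_num)] at hx
      exact hκ' (neg_eq_zero.1 hx.symm)
    have h1 : -algebraMap F K κ / x = x := by
      rw [← hx, pow_two, mul_div_assoc, div_self hx0, mul_one]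
    rw [key x hx0, h1, hx]
    ring
  have h2' : (2 : K) ≠ 0 := by
    have : algebraMap F K 2 ≠ 0 := by rw [Ne, map_eq_zero]; exact h2
    rwa [map_ofNat] at this
  have hsub : (insert i₀ (insert (-i₀) (B.image (algebraMap F K)))) ⊆ (P.map (algebraMap F K)).roots.toFinset := by
    intro x hx
    rw [Multiset.mem_toFinset, mem_roots hP0', IsRoot.def]
    rw [Finset.mem_insert, Finset.mem_insert, Finset.mem_image] at hx
    rcases hx with rfl | rfl | ⟨v, hv, rfl⟩
    · exact hroot _ hi₀
    · exact hroot _ (by rw [neg_sq]; exact hi₀)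
    · obtain ⟨h3, h4, h5⟩ := hB v hv
      have hv0 : algebraMap F K v ≠ 0 := by rw [Ne, map_eq_zero]; exact h3
      rw [key _ hv0]
      have h6 := congrArg (algebraMap F K) h5
      simp only [map_add, map_mul, map_pow] at h6
      have h7 : (G.map (algebraMap F K)).eval (algebraMap F K v) = algebraMap F K (G.eval v) := by
        rw [eval_map_algebraMap, aeval_algebraMap_apply]; rfl
      have h8 : (G.map (algebraMap F K)).eval (-algebraMap F K κ / algebraMap F K v) =
          algebraMap F K (G.eval (-κ / v)) := by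
        rw [← map_neg, ← map_div₀, eval_map_algebraMap, aeval_algebraMap_apply]; rfl
      rw [h7, h8, h6, sub_self, mul_zero]
  have hcard : (insert i₀ (insert (-i₀) (B.image (algebraMap F K)))).card = B.card + 2 := by
    have h3 : ∀ x : K, x ^ 2 = -algebraMap F K κ → x ∉ B.image (algebraMap F K) := by
      intro x hx hmem
      rw [Finset.mem_image] at hmem
      obtain ⟨v, hv, rfl⟩ := hmem
      apply (hB v hv).2.1
      rw [← map_pow, ← map_neg] at hx
      have := (algebraMap F K).injective hx
      rw [this]; ring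
    rw [Finset.card_insert_of_notMem, Finset.card_insert_of_notMem, Finset.card_image_of_injective _
      (algebraMap F K).injective]
    · exact h3 _ (by rw [neg_sq]; exact hi₀)
    · rw [Finset.mem_insert]
      rintro (h4 | h4)
      · have : 2 * i₀ = 0 := by linear_combination h4
        rcases mul_eq_zero.1 this with h5 | h5
        · exact h2' h5
        · exact hi0 h5
      · exact h3 _ hi₀ h4
  have h9 := Finset.card_le_card hsub
  rw [hcard] at h9
  have h10 := (Multiset.toFinset_card_le (P.map (algebraMap F K)).roots).trans (card_roots' _)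
  rw [natDegree_map, dP] at h10
  omega

/-- The number of `w ≠ 0` with `G(w) - G(-w) = 2 c w`. -/
theorem card_sym (h2 : (2 : F) ≠ 0) (G : F[X]) (hG : 3 ≤ G.natDegree) (hodd : Odd G.natDegree) (c : F) (B : Finset F)
    (hB : ∀ w ∈ B, w ≠ 0 ∧ G.eval w - G.eval (-w) = 2 * c * w) : B.card ≤ G.natDegree - 1 := by
  classical
  set j := G.natDegree with hj
  have hG0 : G ≠ 0 := by
    rintro rfl
    rw [natDegree_zero] at hj
    omega
  set P : F[X] := G - G.comp (-X) - C (2 * c) * X with hP
  have hcoeff : P.coeff j = 2 * G.leadingCoeff := by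
    rw [hP, coeff_sub, coeff_sub, coeff_C_mul, coeff_X_of_ne_one (by omega), mul_zero, sub_zero]
    have h3 : (G.comp (-X)).coeff j = -G.coeff j := by
      have h4 : (-X : F[X]) = C (-1) * X := by rw [C_neg, C_1, neg_one_mul]
      rw [h4, comp_C_mul_X_coeff, hodd.neg_one_pow, mul_neg_one]
    rw [h3, leadingCoeff, ← hj]; ring
  have hP0 : P ≠ 0 := by
    intro h0
    rw [h0, coeff_zero] at hcoeff
    rcases mul_eq_zero.1 hcoeff.symm with h3 | h3
    · exact h2 h3
    · exact hG0 (leadingCoeff_eq_zero.1 h3)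
  have hdeg : P.natDegree ≤ j := by
    rw [hP]
    refine (natDegree_sub_le _ _).trans (max_le ((natDegree_sub_le _ _).trans (max_le le_rfl ?_)) ?_)
    · refine natDegree_comp_le.trans ?_
      rw [natDegree_neg, natDegree_X, mul_one]
    · refine (natDegree_C_mul_le _ _).trans ?_
      rw [natDegree_X]; omega
  have hsub : insert 0 B ⊆ P.roots.toFinset := by
    intro x hx
    rw [Multiset.mem_toFinset, mem_roots hP0, IsRoot.def, hP]
    rw [Finset.mem_insert] at hx
    simp only [eval_sub, eval_comp, eval_neg, eval_X, eval_mul, eval_C]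
    rcases hx with rfl | hx
    · simp
    · rw [(hB x hx).2]; ring
  have h0 : (0 : F) ∉ B := fun h => (hB 0 h).1 rfl
  have h9 := Finset.card_le_card hsub
  rw [Finset.card_insert_of_notMem h0] at h9
  have h10 := (Multiset.toFinset_card_le P.roots).trans (card_roots' P)
  omega

end roots

end Pool.Agent.Lib.MP_25863d_co
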